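import Mathlib

/-!
If `X` is selectively highly divergent, then so is its Pixley-Roy hyperspace.
-/

set_option autoImplicit false

open Set Filter Topology

namespace Pool.Agent.Results.MP_3a5480_gt.PixleyRoySHD

universe u

/-- No subsequence of the sequence `x` converges to any point of the space. -/
def NoConvSubseq {X : Type u} [TopologicalSpace X] (x : ℕ → X) : Prop :=
  ∀ φ : ℕ → ℕ, StrictMono φ → ∀ a : X, ¬ Tendsto (x ∘ φ) atTop (𝓝 a)

/-- Selectively highly divergent (SHD) spaces: for every sequence `(U n)` of nonempty open sets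
one can choose points `x n ∈ U n` such that `(x n)` has no convergent subsequences. -/
def SHD (X : Type u) [TopologicalSpace X] : Prop :=
  ∀ U : ℕ → Set X, (∀ n, IsOpen (U n) ∧ (U n).Nonempty) →
    ∃ x : ℕ → X, (∀ n, x n ∈ U n) ∧ NoConvSubseq x

/-- The underlying set of the Pixley-Roy hyperspace: the nonempty finite subsets of `X`. -/
def PixleyRoy (X : Type u) : Type u := {A : Set X // A.Nonempty ∧ A.Finite}

/-- The basic set `[F, V]`. -/
def box {X : Type u} (F : PixleyRoy X) (V : Set X) : Set (PixleyRoy X) :=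
  {H | F.1 ⊆ H.1 ∧ H.1 ⊆ V}

/-- The Pixley-Roy topology: `𝒰` is open iff for each `F ∈ 𝒰` there is an open `V ⊇ F` with
`[F, V] ⊆ 𝒰`. -/
instance {X : Type u} [TopologicalSpace X] : TopologicalSpace (PixleyRoy X) where
  IsOpen 𝒰 := ∀ F ∈ 𝒰, ∃ V : Set X, IsOpen V ∧ F.1 ⊆ V ∧ box F V ⊆ 𝒰
  isOpen_univ := fun _ _ => ⟨univ, isOpen_univ, subset_univ _, subset_univ _⟩
  isOpen_inter := by
    rintro 𝒰 𝒱 h𝒰 h𝒱 F ⟨hF1, hF2⟩
    obtain ⟨V, hV, hFV, hb⟩ := h𝒰 F hF1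
    obtain ⟨W, hW, hFW, hc⟩ := h𝒱 F hF2
    refine ⟨V ∩ W, hV.inter hW, subset_inter hFV hFW, ?_⟩
    rintro H ⟨h1, h2⟩
    exact ⟨hb ⟨h1, h2.trans inter_subset_left⟩, hc ⟨h1, h2.trans inter_subset_right⟩⟩
  isOpen_sUnion := by
    rintro S hS F ⟨𝒰, h𝒰, hF⟩
    obtain ⟨V, hV, hFV, hb⟩ := hS 𝒰 h𝒰 F hF
    exact ⟨V, hV, hFV, hb.trans (subset_sUnion_of_mem h𝒰)⟩

lemma box_open {X : Type u} [TopologicalSpace X] (F : PixleyRoy X) {V : Set X} (hV : IsOpen V) :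
    IsOpen (box F V) := by
  rintro H ⟨h1, h2⟩
  exact ⟨V, hV, h2, fun K hK => ⟨h1.trans hK.1, hK.2⟩⟩

/-- The sets `[F, V]` with `V` open and `F ⊆ V` form a local base at `F`. -/
lemma hasBasis {X : Type u} [TopologicalSpace X] (F : PixleyRoy X) :
    (𝓝 F).HasBasis (fun V : Set X => IsOpen V ∧ F.1 ⊆ V) (fun V => box F V) := by
  refine ⟨fun T => ?_⟩
  rw [mem_nhds_iff]
  constructor
  · rintro ⟨𝒰, h1, h2, h3⟩
    obtain ⟨V, hV, hFV, hb⟩ := h2 F h3
    exact ⟨V, ⟨hV, hFV⟩, hb.trans h1⟩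
  · rintro ⟨V, ⟨hV, hFV⟩, hb⟩
    exact ⟨box F V, hb, box_open F hV, Subset.rfl, hFV⟩

/-- If no subsequence of `x` converges to a point of the finite set `H`, then some subsequence of
`x` avoids an open neighbourhood of `H`. -/
lemma avoid {X : Type u} [TopologicalSpace X] (x : ℕ → X) {H : Set X} (hH : H.Finite) :
    (∀ φ : ℕ → ℕ, StrictMono φ → ∀ a ∈ H, ¬ Tendsto (x ∘ φ) atTop (𝓝 a)) →
    ∃ V : Set X, IsOpen V ∧ H ⊆ V ∧ ∃ φ : ℕ → ℕ, StrictMono φ ∧ ∀ k, x (φ k) ∉ V := by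
  induction H, hH using Set.Finite.induction_on with
  | empty =>
    intro _
    exact ⟨∅, isOpen_empty, Subset.rfl, id, strictMono_id, fun k => by simp⟩
  | @insert h H' _ _ ih =>
    intro hno
    obtain ⟨V, hV, hHV, φ, hφ, hφV⟩ :=
      ih fun φ hφ a ha => hno φ hφ a (mem_insert_of_mem _ ha)
    have h1 := hno φ hφ h (mem_insert _ _)
    rw [tendsto_nhds] at h1
    push Not at h1
    obtain ⟨O, hO, hhO, h2⟩ := h1
    have h3 : ∃ᶠ k in atTop, x (φ k) ∉ O := by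
      intro h4
      apply h2
      filter_upwards [h4] with k hk
      exact not_not.1 hk
    obtain ⟨ψ, hψ, hψO⟩ := extraction_of_frequently_atTop h3
    refine ⟨O ∪ V, hO.union hV, ?_, φ ∘ ψ, hφ.comp hψ, ?_⟩
    · rintro a (rfl | ha)
      · exact Or.inl hhO
      · exact Or.inr (hHV ha)
    · rintro k (hk | hk)
      · exact hψO k hk
      · exact hφV _ hk

/-- **If `X` is SHD, then its Pixley-Roy hyperspace is SHD.** -/
theorem result (X : Type u) [TopologicalSpace X] (hX : SHD X) : SHD (PixleyRoy X) := by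
  intro 𝒰 h𝒰
  have h1 : ∀ n, ∃ F : PixleyRoy X, ∃ V : Set X, IsOpen V ∧ F.1 ⊆ V ∧ box F V ⊆ 𝒰 n := by
    intro n
    obtain ⟨F, hF⟩ := (h𝒰 n).2
    obtain ⟨V, hV⟩ := (h𝒰 n).1 F hF
    exact ⟨F, V, hV⟩
  choose F V hV hFV hb using h1
  obtain ⟨x, hx, hx'⟩ := hX V fun n => ⟨hV n, (F n).2.1.mono (hFV n)⟩
  refine ⟨fun n => ⟨insert (x n) (F n).1, insert_nonempty _ _, (F n).2.2.insert _⟩, ?_, ?_⟩
  · intro n
    refine hb n ⟨subset_insert _ _, insert_subset (hx n) (hFV n)⟩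
  · intro φ hφ H hlim
    obtain ⟨W, hW, hHW, ψ, hψ, hψW⟩ := avoid (x ∘ φ) H.2.2 fun ψ hψ a _ =>
      hx' (φ ∘ ψ) (hφ.comp hψ) a
    have h2 := (tendsto_nhds.1 hlim) (box H W) (box_open H hW) ⟨Subset.rfl, hHW⟩
    obtain ⟨N, hN⟩ := eventually_atTop.1 h2
    have h3 := (hN (ψ N) hψ.le_apply).2
    exact hψW N (h3 (mem_insert _ _))

end Pool.Agent.Results.MP_3a5480_gt.PixleyRoySHD
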